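import Mathlib
import Pool.Agent.N302.MB.Pts
import Pool.Agent.N302.MB.Sharp2

/-!
# Integral points of bounded degree of the moduli spaces `M_{0,n}`

`X` is the Deligne–Mumford compactification of the moduli space `M_{0,n}` of `n` different points
of the projective line, `D` its boundary (a divisor with normal crossings), `k` any number field,
`r` any integer `≥ 2`, and `S` any finite set of primes (the places of `k` above finitely many
rational primes; each finite set of places is contained in such a set). `X` has dimension `n - 3`,
and `K_X + D` is ample for `n ≥ 5`. The coordinate ring of `M_{0,n} = X ∖ D` over `ℤ` is generated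
by the cross ratios of four of the points, which are units of this ring; so the `S`-integral points
of `M_{0,n}` over `L` are the `n`-tuples of points of `ℙ¹(L)`, up to projective linear
transformations, for which all cross ratios of four different points are `S`-units.

We show, for all degrees `r`, for all number fields `k` and for all `S`:

* if `n ≥ 5 r ^ 2` there are only finitely many `S`-integral points of `M_{0,n}` of degree at most
  `r` over `k`. Here the field `L ⊇ k` varies with the point, and the bound for `n` depends neither
  on `k` nor on `S`;
* for `4 ≤ n ≤ 4 r - 2` there are infinitely many, for suitable `k` and `S`: for example the points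
  `∞`, `0`, the roots of unity of order dividing `2 (r - 1)`, and the images of `x` under the
  dihedral group of the maps `z ↦ ω z` and `z ↦ ω / z`, `ω ^ (r - 1) = 1`, where
  `x ^ (r - 1) (x - 2 ^ j) = x + 2 ^ j` and `j` varies.

So the number of points which forces the finiteness is between `4 r - 1` and `5 r ^ 2`. (For a fixed
`S` there are no `S`-integral points at all if `n` is large in terms of `k`, `r` and `S`, as the
number of solutions of the unit equation is bounded.)

As `y² = ∏ (x - a_i)` has good reduction outside of `S` if the `a_i` are such a tuple and `2 ∈ S`,
this is a form of Shafarevich's theorem for hyperelliptic curves with rational Weierstrass points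
which is uniform in the extension of degree at most `r`.

Proof of the finiteness. After a normalisation the norms `∏_t (y_{t,a} - y_{t,b})` to `k` of the
differences of the coordinates of the points are `S`-units of `k`; here `t` runs through the
`d ≤ r` conjugates. If there are infinitely many points, the subspace theorem (for unit equations)
and a specialisation argument yield a field with elements `y_{t,a}` which satisfy all polynomial
relations of the coordinates of infinitely many of the points, and two discrete valuations `V, V'`
of this field with opposite values at all these norms, not all zero or negative at a coordinate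
(`Gen`, `Gen2`, `Core`). So the `m = 2 d` functions `V (y_{t,a} - y_{t,b})`,
`V' (y_{t,a} - y_{t,b})` of the pairs of points `a, b` are ultrametric (trees with `N = n - 1`
leaves), and have constant sum.

It is shown that such functions are constant if `N > 5 m ^ 2 / 4 - 2` and `N > 5` (`trop_quad`). For
each of the `m` trees let `g_p` be the Gromov product with respect to a centroid of the leaves, so
that `∑_p g_p (i, j) = b_i + b_j` for `i ≠ j`. As ultrametric kernels are positive semidefinite, the
matrix `∑_p g_p` is, too; for a fixed `p` a combination of vectors which are constant on the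
branches at the centroid of the tree number `p`, and have sum zero, shows that
`∑_{i,j} g_p (i, j) ≤ ∑_i (∑_q g_q (i, i) - 2 b_i)` (`main_ineq`). The diagonal elements
`g_p (i, i)` are the largest values of `g_p (i, j)`, `j ≠ i`, and their sum over `i` is at most
`5 / 2` times the sum of the positive parts of the `b_i` (`charge`). These inequalities imply
`b_i + b_j = 0`, so that all trees are stars, if `N` is as large as stated. (If `m - 1` is the order
of an affine plane, the parallel classes of its lines define `m` ultrametric functions which are not
constant, and have constant sum, on a set with `(m - 1) ^ 2` elements.)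
-/

set_option autoImplicit false

namespace Pool.Agent.Results.MP_71c16a_nt.BoundedDegreeModuli

variable {K : Type} [Field K] {n : ℕ}

/-- The determinant of two vectors of `K²`; it is different from zero if and only if they are
homogeneous coordinates of two different points of the projective line. -/
def det2 (u v : Fin 2 → K) : K := u 0 * v 1 - u 1 * v 0

/-- The cross ratio of the points number `i, j, k, l`. -/
noncomputable def crossRatio (P : Fin n → Fin 2 → K) (i j k l : Fin n) : K :=
  det2 (P i) (P j) * det2 (P k) (P l) / (det2 (P i) (P k) * det2 (P j) (P l))

/-- `a` is an `S`-unit: a unit of the ring of those elements of `K` which become integral when they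
are multiplied by a power of the product of the primes in `S`. -/
def IsSUnit (S : Finset ℕ) (a : K) : Prop :=
  a ≠ 0 ∧ ∃ m : ℕ, IsIntegral ℤ ((∏ p ∈ S, (p : K)) ^ m * a) ∧
    IsIntegral ℤ ((∏ p ∈ S, (p : K)) ^ m * a⁻¹)

/-- `P` represents an `S`-integral point of `M_{0,n}` over `K`: the `n` points `P i` of the
projective line are different, and the cross ratio of any four of them is an `S`-unit. -/
structure IsIntegralPoint (S : Finset ℕ) (P : Fin n → Fin 2 → K) : Prop where
  distinct : ∀ i j, i ≠ j → det2 (P i) (P j) ≠ 0
  unit : ∀ f : Fin 4 → Fin n, Function.Injective f →
    IsSUnit S (crossRatio P (f 0) (f 1) (f 2) (f 3))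

/-- The `S`-integral points of `M_{0,n}` of degree at most `r` over `k`: the systems of the complex
numbers `φ (crossRatio P i j l m)` for the `S`-integral points `P` over the extensions `L` of `k` of
degree at most `r`, and the embeddings `φ` of `L`. -/
def pointsOfDegreeLE (k : Type) [Field k] (r n : ℕ) (S : Finset ℕ) :
    Set (Fin n → Fin n → Fin n → Fin n → ℂ) :=
  {c | ∃ (L : Type) (_ : Field L) (_ : NumberField L) (_ : Algebra k L) (P : Fin n → Fin 2 → L)
    (φ : L →+* ℂ), Module.finrank k L ≤ r ∧ IsIntegralPoint S P ∧
      c = fun i j l m => φ (crossRatio P i j l m)}

/-- Integral points of degree at most `r` on `M_{0,n}`: for all `n ≥ 5 r ^ 2` there are finitely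
many, for every number field `k` and every finite set `S` of primes; and for all `n` with
`4 ≤ n ≤ 4 r - 2` there are infinitely many, for some `k` and `S`. -/
theorem result (r : ℕ) (hr : 2 ≤ r) :
    (∀ n, 5 * r ^ 2 ≤ n → ∀ (k : Type) [Field k] [NumberField k] (S : Finset ℕ),
      (∀ p ∈ S, p.Prime) → (pointsOfDegreeLE k r n S).Finite) ∧
    (∀ n, 4 ≤ n → n ≤ 4 * r - 2 → ∃ (k : Type) (_ : Field k) (_ : NumberField k) (S : Finset ℕ),
      (∀ p ∈ S, p.Prime) ∧ (pointsOfDegreeLE k r n S).Infinite) := by
  refine ⟨fun n hn k iF iN S hS => ?_, fun n h4 hn => ?_⟩
  · have hr2 : 2 ^ 2 ≤ r ^ 2 := Nat.pow_le_pow_left hr 2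
    obtain ⟨M, rfl⟩ : ∃ M, n = M + 3 := ⟨n - 3, by omega⟩
    have h := Pool.Agent.N302.MB.finite_pts k r M (fun d h1 h2 => ?_) S hS
    · refine h.subset ?_
      rintro c ⟨L, jF, jN, jA, P, φ, hL, hP, hc⟩
      exact ⟨L, jF, jN, jA, P, φ, hL, ⟨hP.distinct, hP.unit⟩, hc⟩
    · unfold Pool.Agent.N302.MB.bq
      have h3 : d ^ 2 ≤ r ^ 2 := Nat.pow_le_pow_left h2 2
      have h4 : (2 * d) ^ 2 = 4 * d ^ 2 := by ring
      rw [h4]
      omega
  · obtain ⟨k, jF, jN, S, hS, h⟩ := Pool.Agent.N302.MB.sharp (r - 1) (by omega) n h4 (by omega)
    refine ⟨k, jF, jN, S, hS, h.mono ?_⟩
    rintro c ⟨L, iF, iN, iA, P, φ, hL, hP, hc⟩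
    exact ⟨L, iF, iN, iA, P, φ, by omega, ⟨hP.1, hP.2⟩, hc⟩

end Pool.Agent.Results.MP_71c16a_nt.BoundedDegreeModuli
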