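import Mathlib
import Pool.Agent.N750.ResX

set_option autoImplicit false

/-!
# Vojta's inequality for the algebraic points with almost maximal discriminant on any variety

`k` is a number field, `X ⊂ ℙ^(M - 1)` is any smooth projective variety over `k` of dimension `n ≥ 1`
(the equations `G i` generate its prime ideal), `D = D_1 + ⋯ + D_q` is a divisor with normal crossings
on `X` which is defined over `k` and whose components are hyperplane sections `X ∩ {H_s = 0}` over some
number field `K` containing `k`, `q` arbitrary, and `S` is any finite set of places of `k` which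
contains the archimedean ones. The points `x` of `X` have degree `d` with `2 ≤ d ≤ r` over `k`;
`L = k(x)`.

The logarithmic discriminant of a point of degree `d` is at most `(2 d - 2) h(x) + O(1)`. For the points
for which it is at least `(2 d - 2 - δ) h(x)`, where `δ` is positive and depends on `ε` and `r`, Vojta's
inequality holds. The exceptional set is a proper closed subset which depends only on `X` and `D`.
-/

namespace Pool.Agent.Results.MP_71c16a_nt.MaximalDiscriminantVarieties

open NumberField IsDedekindDomain MvPolynomial

/-- The value of the linear form with the coefficients `h`. -/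
def linearForm {K Ω : Type} [Field K] [Field Ω] [Algebra K Ω] {M : ℕ} (h : Fin M → K)
    (z : Fin M → Ω) : Ω := ∑ l, algebraMap K Ω (h l) * z l

/-- The tangent space at `z` of the affine cone over the variety with the equations `G i`: the vectors
`v` with `∑ j, (∂_j G i)(z) v_j = 0` for all `i`. -/
noncomputable def tangentSpace {k Ω : Type} [Field k] [Field Ω] [Algebra k Ω] {M g : ℕ}
    (G : Fin g → MvPolynomial (Fin M) k) (z : Fin M → Ω) : Submodule Ω (Fin M → Ω) :=
  ⨅ i, LinearMap.ker (∑ j, aeval z (pderiv j (G i)) • LinearMap.proj (R := Ω) (φ := fun _ => Ω) j)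

/-- The variety with the equations `G i` is smooth of dimension `n`: at all points over all extension
fields the tangent space of the cone has dimension `n + 1`. -/
def IsSmooth {k : Type} [Field k] {M g : ℕ} (n : ℕ) (G : Fin g → MvPolynomial (Fin M) k) : Prop :=
  ∀ (Ω : Type) [Field Ω] [Algebra k Ω] (z : Fin M → Ω), z ≠ 0 → (∀ i, aeval z (G i) = 0) →
    Module.finrank Ω (tangentSpace G z) = n + 1

/-- The hyperplane sections `H s = 0` have normal crossings on the (smooth) variety: at each of its
points `z` over each extension field the linear forms `H s` which vanish at `z` are linearly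
independent on the tangent space. -/
def IsNormalCrossings {k K : Type} [Field k] [Field K] [Algebra k K] {M g q : ℕ}
    (G : Fin g → MvPolynomial (Fin M) k) (H : Fin q → Fin M → K) : Prop :=
  ∀ (Ω : Type) [Field Ω] [Algebra k Ω] [Algebra K Ω] [IsScalarTower k K Ω] (z : Fin M → Ω),
    z ≠ 0 → (∀ i, aeval z (G i) = 0) → ∀ c : Fin q → Ω,
    (∀ s, c s ≠ 0 → linearForm (H s) z = 0) →
    (∀ v ∈ tangentSpace G z, ∑ s, c s * linearForm (H s) v = 0) → c = 0

/-- The field `L` is `k(x)`: it is generated over `k` by the quotients of the coordinates of `x`. -/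
def IsResidueField (k : Type) {L : Type} [Field k] [Field L] [Algebra k L] {M : ℕ}
    (x : Fin M → L) : Prop :=
  IntermediateField.adjoin k (Set.range fun p : Fin M × Fin M => x p.1 / x p.2) = ⊤

/-- The logarithmic height relative to `k` of a point over `L`. -/
noncomputable def height (k : Type) {L : Type} [Field k] [Field L] [NumberField L] [Algebra k L]
    {M : ℕ} (x : Fin M → L) : ℝ := Height.logHeight x / Module.finrank k L

/-- The columns of `A` are a basis of the tangent space of the cone at `x` (for a smooth variety of
dimension `n`). -/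
def IsTangentBasis {k L : Type} [Field k] [Field L] [Algebra k L] {M g n : ℕ}
    (G : Fin g → MvPolynomial (Fin M) k) (x : Fin M → L) (A : Matrix (Fin M) (Fin (n + 1)) L) :
    Prop :=
  LinearIndependent L A.col ∧ ∀ c, A.col c ∈ tangentSpace G x

/-- The height `h_K(x)` for the canonical class `K` of the variety: the Gauss map `γ` sends a point to
its embedded tangent space, `γ^* O(1) = K + (n + 1) H` for the hyperplane class `H`; `h_K(x)` is the
height of the vector of the maximal minors of a basis `A` of the tangent space (relative to `k`) minus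
`(n + 1) h(x)`. -/
noncomputable def canonicalHeight (k : Type) {L : Type} [Field k] [Field L] [NumberField L]
    [Algebra k L] {M n : ℕ} (x : Fin M → L) (A : Matrix (Fin M) (Fin (n + 1)) L) : ℝ :=
  Height.logHeight (fun J : Fin (n + 1) → Fin M => (A.submatrix J id).det) / Module.finrank k L -
    (n + 1) * height k x

/-- The logarithmic discriminant `log |disc L| / [L : k] - log |disc k|`. -/
noncomputable def logDisc (k L : Type) [Field k] [NumberField k] [Field L] [NumberField L]
    [Algebra k L] : ℝ :=
  Real.log |(discr L : ℝ)| / Module.finrank k L - Real.log |(discr k : ℝ)|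

/-- The primes of `L` above the primes in `S`. -/
def primesAbove {k : Type} [Field k] [NumberField k] (S : Finset (HeightOneSpectrum (𝓞 k)))
    (L : Type) [Field L] [NumberField L] [Algebra k L] : Set (HeightOneSpectrum (𝓞 L)) :=
  {w | ∃ v ∈ S, w.asIdeal.LiesOver v.asIdeal}

/-- The local height `log (max_j |x_j| ^ q / |F(x)|)` of the divisor `F = 0`, `F` a form of degree
`q`, for an absolute value of `L`. -/
noncomputable def weil {k L : Type} [Field k] [Field L] [Algebra k L] {M : ℕ} (q : ℕ)
    (f : AbsoluteValue L ℝ) (F : MvPolynomial (Fin M) k) (x : Fin M → L) : ℝ :=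
  Real.log ((⨆ j, f (x j)) ^ q / f (aeval x F))

/-- The proximity function `∑_{ν ∈ S} λ_D(x, ν)` relative to `k`, where `S` consists of the
archimedean places of `k` and the primes in `S`: the sum of the local heights over the infinite places
`w` of `L` (with the factor `[L_w : ℝ]`) and over the primes of `L` above the primes in `S` (with the
absolute value `N(w) ^ (- ord_w)`), divided by `[L : k]`. -/
noncomputable def proximity {k L : Type} [Field k] [NumberField k] [Field L] [NumberField L]
    [Algebra k L] {M : ℕ} (S : Finset (HeightOneSpectrum (𝓞 k))) (q : ℕ)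
    (F : MvPolynomial (Fin M) k) (x : Fin M → L) : ℝ :=
  (∑ w : InfinitePlace L, (w.mult : ℝ) * weil q w.1 F x +
    ∑ᶠ w ∈ primesAbove S L, weil q (FinitePlace.mk w).1 F x) / Module.finrank k L

theorem mem_tangentSpace {k Ω : Type} [Field k] [Field Ω] [Algebra k Ω] {M g : ℕ}
    {G : Fin g → MvPolynomial (Fin M) k} {z v : Fin M → Ω} :
    v ∈ tangentSpace G z ↔ ∀ i, ∑ j, aeval z (pderiv j (G i)) * v j = 0 := by
  unfold tangentSpace
  rw [Submodule.mem_iInf]
  refine forall_congr' fun i => ?_
  rw [LinearMap.mem_ker, LinearMap.sum_apply]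
  rfl

theorem tangentSpace_eq {k Ω : Type} [Field k] [Field Ω] [Algebra k Ω] {M g : ℕ}
    (G : Fin g → MvPolynomial (Fin M) k) (z : Fin M → Ω) :
    tangentSpace G z = Pool.Agent.N750.TS G z := by
  ext v
  rw [mem_tangentSpace, Pool.Agent.N750.mem_TS]

/-- **Vojta's inequality for the algebraic points with almost maximal discriminant on `X`.** Let
`X ⊂ ℙ^(M - 1)` be a smooth projective variety over the number field `k` of dimension `n ≥ 1`, with
the prime ideal generated by the forms `G i`, and let `F` be a form over `k` which over the number field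
`K` is the product of the linear forms `H s`, whose hyperplane sections have normal crossings on `X`.
There is a form `Φ` over `k` which does not vanish on `X` such that for every finite set `S` of primes
of `k` (the archimedean places are always added), every `r` and every `ε > 0` there are `δ > 0` and `C`
with the following property: for every point `x` of `X` of degree `d` over `k`, `2 ≤ d ≤ r`, outside
`F = 0` and `Φ = 0`, with residue field `L` and with `d_k(x) ≥ (2 d - 2 - δ) h(x)`, Vojta's inequality
`h_K(x) + ∑_{ν ∈ S} λ_D(x, ν) ≤ ε h(x) + d_k(x) + C` holds. -/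
theorem result (k K : Type) [Field k] [NumberField k] [Field K] [NumberField K] [Algebra k K]
    (n M g q : ℕ) (hn : 1 ≤ n) (G : Fin g → MvPolynomial (Fin M) k) (e : Fin g → ℕ)
    (hG : ∀ i, (G i).IsHomogeneous (e i)) (hI : (Ideal.span (Set.range G)).IsPrime)
    (hX : IsSmooth n G) (F : MvPolynomial (Fin M) k) (H : Fin q → Fin M → K)
    (hF : F.map (algebraMap k K) = ∏ i, ∑ j, C (H i j) * X j) (hD : IsNormalCrossings G H) :
    ∃ (m : ℕ) (Φ : MvPolynomial (Fin M) k), Φ ∉ Ideal.span (Set.range G) ∧ Φ.IsHomogeneous m ∧
      ∀ (S : Finset (HeightOneSpectrum (𝓞 k))) (r : ℕ) (ε : ℝ), 0 < ε →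
      ∃ δ C : ℝ, 0 < δ ∧ ∀ (L : Type) [Field L] [NumberField L] [Algebra k L]
        (x : Fin M → L), 2 ≤ Module.finrank k L → Module.finrank k L ≤ r →
        IsResidueField k x → x ≠ 0 → (∀ i, aeval x (G i) = 0) → aeval x F ≠ 0 → aeval x Φ ≠ 0 →
        (2 * Module.finrank k L - 2 - δ) * height k x ≤ logDisc k L →
        ∀ A : Matrix (Fin M) (Fin (n + 1)) L, IsTangentBasis G x A →
        canonicalHeight k x A + proximity S q F x ≤ ε * height k x + logDisc k L + C := by
  classical
  obtain ⟨n', rfl⟩ : ∃ n', n = n' + 1 := ⟨n - 1, by omega⟩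
  have hsm : Pool.Agent.N750.Sm (n' + 1) G := by
    intro Ω _ _ z hz hzG
    rw [← tangentSpace_eq]
    exact hX Ω z hz hzG
  have hnc : Pool.Agent.N750.NC G H := by
    intro Ω _ _ _ _ z hz hzG c hc hv
    refine hD Ω z hz hzG c (fun s hs => (hc s hs).1) (fun v hvm => hv v ?_)
    rw [← tangentSpace_eq]
    exact hvm
  obtain ⟨m, Φ, hΦm, hΦI, hmain, -⟩ := Pool.Agent.N750.main_Xr F H hF G e hG hI hsm hnc
  refine ⟨m, Φ, hΦI, hΦm, fun S r ε hε => ?_⟩
  obtain ⟨δ, C, hδ, h⟩ := hmain S r (ε / 2) (by linarith)
  refine ⟨min δ (ε / 2), max C 0, lt_min hδ (by linarith), ?_⟩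
  intro L _ _ _ x hd2 hdr hx hx0 hXx hFx hΦx hdisc A hA
  have hd : (0 : ℝ) < Module.finrank k L := by exact_mod_cast Module.finrank_pos
  have hd1 : (1 : ℝ) ≤ Module.finrank k L := by
    exact_mod_cast (show 1 ≤ Module.finrank k L by omega)
  have hht : 0 ≤ height k x := div_nonneg (Height.logHeight_nonneg _) hd.le
  have hht2 : Height.logHeight x = Module.finrank k L * height k x := by
    unfold height
    field_simp
  have hld : Real.log |(discr L : ℝ)| - Module.finrank k L * Real.log |(discr k : ℝ)| =
      Module.finrank k L * logDisc k L := by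
    unfold logDisc
    field_simp
  have hδ1 := min_le_left δ (ε / 2)
  have hδ2 := min_le_right δ (ε / 2)
  have hTB : Pool.Agent.N750.IsTB G x (fun l c => A l c) := by
    refine ⟨hA.1, fun c => ?_⟩
    rw [← tangentSpace_eq]
    exact hA.2 c
  have h1 := h L x hd2 hdr hx hx0 hXx hFx hΦx (by
    rw [hld, hht2]
    have e1 : (2 * ((Module.finrank k L : ℝ) - 1) - δ) * height k x ≤
        (2 * Module.finrank k L - 2 - min δ (ε / 2)) * height k x :=
      mul_le_mul_of_nonneg_right (by linarith) hht
    have e2 := mul_le_mul_of_nonneg_left (e1.trans hdisc) hd.le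
    linarith) (fun l c => A l c) hTB
  have hweil : ∀ f : AbsoluteValue L ℝ, q * Real.log (Pool.Agent.W180.OP.nrm f x) -
      Real.log (f (aeval x F)) = weil q f F x := by
    intro f
    unfold weil
    have e1 : (⨆ j, f (x j)) = Pool.Agent.W180.OP.nrm f x := rfl
    rw [e1, Real.log_div (pow_pos (Pool.Agent.W180.OP.nrm_pos f hx0) _).ne'
      (f.pos_iff.2 hFx).ne', Real.log_pow]
  have hw1 : ∀ w : InfinitePlace L, q * Real.log (Pool.Agent.W180.OP.nrm w.1 x) -
      Real.log (w (aeval x F)) = weil q w.1 F x := fun w => hweil w.1
  have hw2 : ∀ w : HeightOneSpectrum (𝓞 L),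
      q * Real.log (Pool.Agent.W180.OP.nrm (FinitePlace.mk w).1 x) -
      Real.log (FinitePlace.mk w (aeval x F)) = weil q (FinitePlace.mk w).1 F x :=
    fun w => hweil (FinitePlace.mk w).1
  simp only [hw1, hw2] at h1
  have h2 : Module.finrank k L * proximity S q F x =
      ∑ w : InfinitePlace L, (w.mult : ℝ) * weil q w.1 F x +
        ∑ᶠ w ∈ primesAbove S L, weil q (FinitePlace.mk w).1 F x := by
    unfold proximity
    field_simp
  have h2' : Module.finrank k L * canonicalHeight k x A =
      Height.logHeight (Pool.Agent.N750.mv (fun l c => A l c)) -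
        (n' + 2) * (Module.finrank k L * height k x) := by
    have e1 : Pool.Agent.N750.mv (fun l c => A l c) =
        fun J : Fin (n' + 1 + 1) → Fin M => (A.submatrix J id).det := rfl
    unfold canonicalHeight
    rw [e1]
    push_cast
    field_simp
    ring
  have h3 : Module.finrank k L * (canonicalHeight k x A + proximity S q F x) ≤
      (2 * Module.finrank k L - 2 + ε / 2) * (Module.finrank k L * height k x) + C := by
    rw [mul_add, h2, h2']
    rw [← hht2]
    have h4 : Height.logHeight (Pool.Agent.N750.mv (fun l c => A l c)) -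
        (n' + 2) * Height.logHeight x + (∑ w : InfinitePlace L, (w.mult : ℝ) * weil q w.1 F x +
        ∑ᶠ w ∈ primesAbove S L, weil q (FinitePlace.mk w).1 F x) ≤
        (n' + 2 * Module.finrank k L + ε / 2) * Height.logHeight x + C -
          (n' + 2) * Height.logHeight x := by
      have h5 : ∑ w : InfinitePlace L, (w.mult : ℝ) * weil q w.1 F x +
        ∑ᶠ w ∈ primesAbove S L, weil q (FinitePlace.mk w).1 F x +
          Height.logHeight (Pool.Agent.N750.mv (fun l c => A l c)) ≤
          (n' + 2 * Module.finrank k L + ε / 2) * Height.logHeight x + C := h1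
      linarith
    refine h4.trans (le_of_eq ?_)
    ring
  have h4 : Module.finrank k L * (canonicalHeight k x A + proximity S q F x) ≤
      Module.finrank k L *
      ((2 * Module.finrank k L - 2 + ε / 2) * height k x + max C 0) := by
    refine h3.trans ?_
    have e1 : C ≤ Module.finrank k L * max C 0 :=
      (le_max_left C 0).trans (le_mul_of_one_le_left (le_max_right C 0) hd1)
    linarith
  have h5 := le_of_mul_le_mul_left h4 hd
  have h6 : min δ (ε / 2) * height k x ≤ ε / 2 * height k x :=
    mul_le_mul_of_nonneg_right hδ2 hht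
  linarith

end Pool.Agent.Results.MP_71c16a_nt.MaximalDiscriminantVarieties
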