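import Pool.Agent.N120.TH.AllR
import Pool.Agent.N120.TH.Fin5R
import Pool.Agent.N120.TH.HITJ
import Pool.Agent.N120.TH.CONVJ

/-!
# Algebraic points of bounded degree on finite covers of tori
-/

set_option autoImplicit false

namespace Pool.Agent.Results.MP_71c16a_nt.PointsOnCoversOfTori

open Polynomial

/-- the polynomial `f` over an extension `F` of `K` -/
noncomputable def extend {K : Type} [Field K] (F : Type) [Field F] [Algebra K F] {n : ℕ}
    (f : Polynomial (MvPolynomial (Fin n) K)) : Polynomial (MvPolynomial (Fin n) F) :=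
  f.map (MvPolynomial.map (algebraMap K F))

/-- no `f(x_1 ^ m, …, x_n ^ m, y)`, `m ≥ 1`, has over the algebraic closure of `K` a factorisation `g h`
with `g` monic in `y` of degree between `1` and `e` -/
def NoFactors {K : Type} [Field K] {n : ℕ} (f : Polynomial (MvPolynomial (Fin n) K)) (e : ℕ) :
    Prop :=
  ∀ j : ℕ, 1 ≤ j → j ≤ e → ∀ m : ℕ, 1 ≤ m →
    ∀ g h : Polynomial (MvPolynomial (Fin n) (AlgebraicClosure K)), g.Monic →
      (extend (AlgebraicClosure K) f).map
        (MvPolynomial.expand m : MvPolynomial (Fin n) (AlgebraicClosure K) →ₐ[AlgebraicClosure K]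
          MvPolynomial (Fin n) (AlgebraicClosure K)).toRingHom = g * h → g.natDegree ≠ j

/-- the algebraic points `(x, w)` of `V: f(x, w) = 0`, `w ∈ F̄`, with `x_i ∈ Γ`, `x_i / y_i` of
(logarithmic, relative to `F`) height at most `T`, and of degree at most `e` over `F` -/
def points {F : Type} [Field F] [NumberField F] {n : ℕ}
    (f : Polynomial (MvPolynomial (Fin n) F)) (e : ℕ) (Γ : Subgroup Fˣ) (y : Fin n → Fˣ) (T : ℝ) :
    Set ((Fin n → Fˣ) × AlgebraicClosure F) :=
  {z | (∀ i, z.1 i ∈ Γ ∧ Height.logHeight₁ ((z.1 i / y i : Fˣ) : F) ≤ T) ∧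
    Polynomial.aeval z.2 (f.map (MvPolynomial.eval (fun i => ((z.1 i : Fˣ) : F)))) = 0 ∧
    (minpoly F z.2).natDegree ≤ e}

/-- a power saving in the number of the points of degree at most `e`, over all number fields and for all
finitely generated groups `Γ` of rank `r ≥ 2`, with any exponent `θ < (r - 1) / (5 r + 3)`, uniformly in
the centre -/
def PowerSaving {K : Type} [Field K] [NumberField K] {n : ℕ}
    (f : Polynomial (MvPolynomial (Fin n) K)) (e : ℕ) : Prop :=
  ∀ (F : Type) [Field F] [NumberField F] [Algebra K F] (Γ : Subgroup Fˣ), Γ.FG →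
    2 ≤ Module.finrank ℤ (Additive Γ) → ∀ θ : ℝ, 0 < θ →
    θ < ((Module.finrank ℤ (Additive Γ) : ℝ) - 1) / (5 * Module.finrank ℤ (Additive Γ) + 3) →
    ∃ C : ℝ, ∀ y : Fin n → Fˣ, (∀ i, y i ∈ Γ) →
      ∀ T : ℝ, 1 ≤ T → (points (extend F f) e Γ y T).Finite ∧
        ((points (extend F f) e Γ y T).ncard : ℝ) ≤
          C * T ^ ((n : ℝ) * Module.finrank ℤ (Additive Γ) - θ)

/-- the points of degree at most `e` have lower density zero over `Γ ^ n` -/
def NotPositive {K : Type} [Field K] [NumberField K] {n : ℕ}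
    (f : Polynomial (MvPolynomial (Fin n) K)) (e : ℕ) : Prop :=
  ∀ (F : Type) [Field F] [NumberField F] [Algebra K F] (Γ : Subgroup Fˣ), Γ.FG →
    2 ≤ Module.finrank ℤ (Additive Γ) → ∀ c : ℝ, 0 < c → ∀ T0 : ℝ, ∃ T : ℝ, T0 ≤ T ∧
      (points (extend F f) e Γ 1 T).Finite ∧
        ((points (extend F f) e Γ 1 T).ncard : ℝ) <
          c * T ^ ((n : ℝ) * Module.finrank ℤ (Additive Γ))

theorem result (K : Type) [Field K] [NumberField K] (n e : ℕ) (hn : 1 ≤ n)
    (f : Polynomial (MvPolynomial (Fin n) K)) (hf : f.Monic) :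
    [NoFactors f e, PowerSaving f e, NotPositive f e].TFAE :=
  N120.TH.Fin5R_.tfaeD N120.TH.oneR N120.TH.alg N120.TH.t_FCT N120.TH.t_HITJ N120.TH.t_CONVJ hn e f hf

end Pool.Agent.Results.MP_71c16a_nt.PointsOnCoversOfTori
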