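import Mathlib
import Pool.Agent.N753.DR.PCf

/-!
# Vojta's conjecture for the points of products of curves above tuples of points of given degrees of
# the line: truncated counting functions, proximity to all divisors, one exceptional set

Let `K` be a number field, `n = [K : ℚ]`, `m ≥ 1` and `r_1, …, r_m ≥ 1`. A tuple of points of
degrees `r_1, …, r_m` over `K` of the line (different from `∞`) is given by the tuple of the minimal
polynomials over `K`; about `B ^ (n ∑ r_i (r_i + 1))` of these tuples have absolute heights at most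
`log B` (Masser and Vaaler).

Let `k` be a number field containing `K`, `C_1, …, C_m` smooth projective curves over `k`,
`t_i : C_i → ℙ¹` a finite map of degree `N_i` over `k` which is unramified outside the fibres over
finitely many different points `a_i1, …, a_iq_i` of `k`, and let `D_i` be a reduced effective
divisor on `C_i` contained in these fibres. (Every curve and every reduced divisor has such maps, by
Belyi's theorem even with `q_i = 3` rational points; `a_ij ≠ ∞` may be supposed.) Let `A_i` be the
ring of the functions on `C_i` with poles only over `t_i = ∞`: a Dedekind domain, finite over `k[t]`.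
If `F_ij` is the ideal of the points over `a_ij` which are not points of `D_i`, then
`2 + deg (K_{C_i} + D_i) / N_i = q_i - (∑_j dim (A_i / F_ij)) / N_i`.

Let `X = C_1 × … × C_m` and let `D` be the normal crossings divisor `∑ pr_i^* D_i`. Let `D'` be ANY
effective divisor on `(ℙ¹)^m`, of degrees `d_1, …, d_m`, over `k`: the divisor of the form of degrees
`d_1, …, d_m` given by a polynomial `G ≠ 0` over `k` in `m` variables, of degree at most `d_i` in the
`i`-th variable. (Every effective divisor on `X` is contained in the inverse image of such a divisor,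
the inverse image of its image.)

We prove that there is ONE set `E` of tuples of points, which contains at most
`c₀ B ^ (n ∑ r_i (r_i + 1)) exp (-√(log B))` tuples of absolute heights at most `log B`, such that
for all number fields `k` containing `K`, all curves `C_1, …, C_m`, all maps `t_i`, all points
`a_ij`, of degree at most `2 r_i + 1` over `K`, all `D_i`, all `D'`, all finite sets `S` of primes of
`k` (the infinite places are added) and all `ε > 0`, with a constant `c` depending on these data: all
points `P = (P_1, …, P_m)` of `X`, with values in ANY number field `L` containing `k`, for which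
`t_i(P_i)` is of degree `r_i` over `K`, the tuple of the `t_i(P_i)` is not in `E`, and which are not
on the supports of `D'` and of the fibres over the `a_ij`, satisfy
`m_S(D', P) + ∑_i (2 + deg (K_{C_i} + D_i) / N_i - ε) h(t_i(P_i)) ≤ N_S^{(1)}(D, P) + d(L) + c`.
This is Vojta's inequality
`m_S(D', P) + h_{K_X + D}(P) ≤ N_S^{(1)}(D, P) + d(P) + ε h_A(P) + O(1)` (if the height of a divisor
of degree `d` on `C_i` is replaced by `d h(t_i(P_i)) / N_i`), with the additional term
`2 ∑ h(t_i(P_i))` on the left hand side. In the truncated counting function of the divisor `D` on the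
product `X`, every prime of `L` is counted at most once, also if it belongs to several of the `D_i`;
the field `L` has only one discriminant, although the `m` points `P_i` may all be ramified over it.

Proof. For one curve: the resultant of the minimal polynomial over `K` of `a_ij` and a polynomial of
degree `r_i` with indeterminate coefficients is an incomplete norm form of degree `≤ 2 r_i + 1` in
`r_i + 1` variables, and its values are nearly squarefree. For several curves: the primes above which
`t_i` and `t_l`, `i ≠ l`, are both close to branch points divide two resultants in different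
variables, and their product is small for almost all tuples; the different of `L` is divisible by the
product of the differents at the other primes. For `D'`: elimination and the geometry of numbers show
that the local heights of `D'` at the places of `S` are small for almost all tuples.
-/

set_option autoImplicit false

namespace Pool.Agent.Results.MP_71c16a_nt.ProductsOfCurves

open Polynomial IsDedekindDomain NumberField Module

/-- The function `t` on the curve with the ring of functions `A`. -/
noncomputable def coord (k A : Type) [Field k] [CommRing A] [Algebra k[X] A] : A :=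
  algebraMap k[X] A X

/-- The ideal of the reduced fibre over `a`. -/
noncomputable def fibre (k A : Type) [Field k] [CommRing A] [Algebra k A] [Algebra k[X] A]
    (a : k) : Ideal A :=
  (Ideal.span {coord k A - algebraMap k A a}).radical

/-- The absolute logarithmic height. -/
noncomputable def height {L : Type} [Field L] [NumberField L] (x : L) : ℝ :=
  Height.logHeight₁ x / finrank ℚ L

/-- The (absolute) logarithmic discriminant `d(L) = log |disc L| / [L : ℚ]`. -/
noncomputable def logDisc (L : Type) [Field L] [NumberField L] : ℝ :=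
  Real.log |(discr L : ℝ)| / finrank ℚ L

/-- The tuples of points of degrees `r_1, …, r_m` over `K` and of absolute heights at most `log B`
of the line, given by their minimal polynomials. -/
def points (K : Type) [Field K] [NumberField K] {m : ℕ} (r : Fin m → ℕ) (B : ℝ) :
    Set (Fin m → K[X]) :=
  {p | ∀ i, (p i).natDegree = r i ∧ ∃ (M : Type) (_ : Field M) (_ : NumberField M)
    (_ : Algebra K M) (x : M), minpoly K x = p i ∧ height x ≤ Real.log B}

/-- `q - (∑_j dim (A / F_j)) / N`, where `N` is the rank of `A` over `k[t]`: the number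
`2 + deg (K_C + D) / N` for the curve `C`. -/
noncomputable def degree (k : Type) {A : Type} [Field k] [CommRing A] [Algebra k A]
    [Algebra k[X] A] {q : ℕ} (F : Fin q → Ideal A) : ℝ :=
  q - (∑ j, (finrank k (A ⧸ F j) : ℝ)) / finrank k[X] A

open Classical in
/-- The (absolute) proximity function `m_S(D', x)` of the divisor `D'` of degrees `d_1, …, d_m` on
`(ℙ¹)^m` given by the polynomial `G`: the sum of the local heights
`log (∏_i max(|x_i|_w, 1) ^ d_i / |G(x)|_w)` over the infinite places `w` of `L`, with
multiplicities, and over the primes `w` of `L` above the primes of `S`, divided by `[L : ℚ]`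
(`|x|_w = N(w) ^ (-ord_w x)` for a prime `w`). -/
noncomputable def proximity {k : Type} [Field k] [NumberField k] {m : ℕ}
    (S : Finset (HeightOneSpectrum (𝓞 k))) (d : Fin m → ℕ) (G : MvPolynomial (Fin m) k)
    {L : Type} [Field L] [NumberField L] [Algebra k L] (x : Fin m → L) : ℝ :=
  (∑ w : InfinitePlace L, (w.mult : ℝ) *
      Real.log ((∏ i, max (w (x i)) 1 ^ d i) / w (MvPolynomial.aeval x G)) +
    ∑ᶠ w : HeightOneSpectrum (𝓞 L),
      if ∃ p ∈ S, w.asIdeal.comap (algebraMap (𝓞 k) (𝓞 L)) = p.asIdeal then
        Real.log ((∏ i, max (FinitePlace.mk w (x i)) 1 ^ d i) /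
          FinitePlace.mk w (MvPolynomial.aeval x G)) else 0) / finrank ℚ L

open Classical in
/-- The (absolute) truncated counting function `N_S^{(1)}(D, P)` of `D = ∑ pr_i^* D_i` at
`P = (P_1, …, P_m)`: the sum of `log N(w) / [L : ℚ]` over the primes `w` of `L`, not above primes in
`S`, at which `P` meets `D`: that is, for some `i` one has `|t_i(P_i)|_w ≤ 1` and for some `j` one
has `|t_i(P_i) - a_ij|_w < 1` and `|y_ijl(P_i)|_w < 1` for all `l`, where `y_ij1 = … = 0` are the
equations of the part of `D_i` over `a_ij`. Every such prime is counted once. -/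
noncomputable def truncated {k : Type} [Field k] [NumberField k] {m : ℕ} {A : Fin m → Type}
    [∀ i, CommRing (A i)] [∀ i, Algebra k (A i)] [∀ i, Algebra k[X] (A i)] {q : Fin m → ℕ}
    (S : Finset (HeightOneSpectrum (𝓞 k))) (a : ∀ i, Fin (q i) → k)
    (u : ∀ i, Fin (q i) → ℕ) (y : ∀ i j, Fin (u i j) → A i) {L : Type} [Field L] [NumberField L]
    [Algebra k L] (P : ∀ i, A i →ₐ[k] L) : ℝ :=
  (∑ᶠ w : HeightOneSpectrum (𝓞 L),
      if (∀ p ∈ S, w.asIdeal.comap (algebraMap (𝓞 k) (𝓞 L)) ≠ p.asIdeal) ∧
        ∃ i, w.valuation L (P i (coord k (A i))) ≤ 1 ∧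
        ∃ j, w.valuation L (P i (coord k (A i)) - algebraMap k L (a i j)) < 1 ∧
          ∀ l, w.valuation L (P i (y i j l)) < 1
      then Real.log (Ideal.absNorm w.asIdeal) else 0) / finrank ℚ L

section Aux

open Pool.Agent.N753.DR Height

theorem points_at {K : Type} [Field K] [NumberField K] {m : ℕ} {r : Fin m → ℕ} {B : ℝ}
    {p : Fin m → K[X]} (hp : p ∈ points K r B) : HT r ((finrank ℚ K : ℝ) * Real.log B) p := by
  intro i
  obtain ⟨hdeg, M, _, _, _, x, hx, hh⟩ := hp i
  have h1 := at_of (K := K) x (r := r i) (by rw [hx, hdeg])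
  rw [hx] at h1
  refine atH_mono (mul_le_mul_of_nonneg_left ?_ (Nat.cast_nonneg _)) h1
  have hfd : FiniteDimensional K M := FiniteDimensional.right ℚ K M
  have h5 : (0 : ℝ) < finrank ℚ M := by exact_mod_cast finrank_pos (R := ℚ) (M := M)
  have h6 : (0 : ℝ) < finrank K M := by exact_mod_cast finrank_pos (R := K) (M := M)
  have h7 : (finrank ℚ K : ℝ) * finrank K M = finrank ℚ M := by
    exact_mod_cast finrank_mul_finrank ℚ K M
  unfold height at hh
  rw [div_le_iff₀ h5] at hh
  rw [div_le_iff₀ h6, mul_right_comm, h7]
  linarith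

/-- a natural number in all primes of a finite set -/
theorem exists_nat {k : Type} [Field k] [NumberField k] (S : Finset (HeightOneSpectrum (𝓞 k))) :
    ∃ b : ℕ, b ≠ 0 ∧ ∀ p ∈ S, (b : 𝓞 k) ∈ p.asIdeal := by
  classical
  refine ⟨∏ p ∈ S, Ideal.absNorm p.asIdeal, Finset.prod_ne_zero_iff.2 fun p _ h =>
    p.ne_bot (Ideal.absNorm_eq_zero_iff.1 h), ?_⟩
  intro p hp
  have h1 : ((Ideal.absNorm p.asIdeal : ℕ) : 𝓞 k) ∈ p.asIdeal := Ideal.absNorm_mem _
  obtain ⟨c, hc⟩ := Finset.dvd_prod_of_mem (fun p : HeightOneSpectrum (𝓞 k) =>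
    Ideal.absNorm p.asIdeal) hp
  rw [hc]
  push_cast
  exact Ideal.mul_mem_right _ _ h1

theorem truncated_ge {k : Type} [Field k] [NumberField k] {m : ℕ} {A : Fin m → Type}
    [∀ i, CommRing (A i)] [∀ i, Algebra k (A i)] [∀ i, Algebra k[X] (A i)] {q : Fin m → ℕ}
    (S : Finset (HeightOneSpectrum (𝓞 k))) (a : ∀ i, Fin (q i) → k)
    (u : ∀ i, Fin (q i) → ℕ) (y : ∀ i j, Fin (u i j) → A i) {L : Type} [Field L] [NumberField L]
    [Algebra k L] (P : ∀ i, A i →ₐ[k] L) (b : ℕ) (hb : ∀ p ∈ S, (b : 𝓞 k) ∈ p.asIdeal)
    (hP : ∀ i j, P i (coord k (A i)) ≠ algebraMap k L (a i j)) :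
    Pool.Agent.W223.CV.cc {b} (fun v : HeightOneSpectrum (𝓞 L) => ∃ i,
            v.valuation L (P i (coord k (A i))) ≤ 1 ∧
            ∃ j, v.valuation L (P i (coord k (A i)) - algebraMap k L (a i j)) < 1 ∧
              ∀ l, v.valuation L (P i (y i j l)) < 1) ≤ finrank ℚ L * truncated S a u y P := by
  classical
  have h5 : (0 : ℝ) < finrank ℚ L := by exact_mod_cast finrank_pos (R := ℚ) (M := L)
  unfold truncated
  rw [mul_div_cancel₀ _ h5.ne']
  have hfin : {v : HeightOneSpectrum (𝓞 L) | ∃ i, v.valuation L (P i (coord k (A i))) ≤ 1 ∧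
      ∃ j, v.valuation L (P i (coord k (A i)) - algebraMap k L (a i j)) < 1 ∧
        ∀ l, v.valuation L (P i (y i j l)) < 1}.Finite := by
    refine (Set.finite_iUnion fun i => Set.finite_iUnion fun j =>
      Pool.Agent.W223.AC.val_finite _ (sub_ne_zero.2 (hP i j))).subset ?_
    rintro v ⟨i, -, j, hv, -⟩
    exact Set.mem_iUnion.mpr ⟨i, Set.mem_iUnion.mpr ⟨j, hv⟩⟩
  unfold Pool.Agent.W223.CV.cc
  refine finsum_le_finsum' (Pool.Agent.W223.CV.ct_support _ hfin) ?_ ?_
  · refine hfin.subset fun v hv => ?_
    rw [Function.mem_support] at hv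
    by_contra hcon
    exact hv (if_neg fun h => hcon h.2)
  · intro v
    by_cases h1 : (∀ p ∈ ({b} : Finset ℕ), (p : 𝓞 L) ∉ v.asIdeal) ∧
        (∃ i, v.valuation L (P i (coord k (A i))) ≤ 1 ∧
      ∃ j, v.valuation L (P i (coord k (A i)) - algebraMap k L (a i j)) < 1 ∧
        ∀ l, v.valuation L (P i (y i j l)) < 1)
    · beta_reduce
      rw [Pool.Agent.W223.CV.ct_pos h1, if_pos]
      refine ⟨?_, h1.2⟩
      intro p hp hv
      apply h1.1 b (Finset.mem_singleton_self b)
      have h2 := hb p hp
      rw [← hv, Ideal.mem_comap, map_natCast] at h2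
      exact h2
    · beta_reduce
      rw [Pool.Agent.W223.CV.ct_neg h1]
      split_ifs
      · exact Real.log_natCast_nonneg _
      · exact le_rfl

theorem proximity_eq {k : Type} [Field k] [NumberField k] {m : ℕ}
    (S : Finset (HeightOneSpectrum (𝓞 k))) (d : Fin m → ℕ) (G : MvPolynomial (Fin m) k)
    {L : Type} [Field L] [NumberField L] [Algebra k L] (x : Fin m → L) :
    finrank ℚ L * proximity S d G x = prZ (fun v : HeightOneSpectrum (𝓞 L) =>
      ∃ p ∈ S, v.asIdeal.comap (algebraMap (𝓞 k) (𝓞 L)) = p.asIdeal) d x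
        (MvPolynomial.aeval x G) := by
  classical
  have h5 : (0 : ℝ) < finrank ℚ L := by exact_mod_cast finrank_pos (R := ℚ) (M := L)
  unfold proximity prZ
  rw [mul_div_cancel₀ _ h5.ne']
  congr 1
  refine finsum_congr fun v => ?_
  by_cases h : ∃ p ∈ S, v.asIdeal.comap (algebraMap (𝓞 k) (𝓞 L)) = p.asIdeal
  · rw [if_pos h, if_pos h]
  · rw [if_neg h, if_neg h]

theorem count_le {n : ℕ} (hn : 1 ≤ n) {c₀ e B : ℝ} (hc : 0 < c₀) (hB : 1 ≤ B) :
    c₀ * Real.exp (e * ((n : ℝ) * Real.log B) - √((n : ℝ) * Real.log B)) ≤
      c₀ * B ^ ((n : ℝ) * e) * Real.exp (-√(Real.log B)) := by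
  have h0 : 0 < B := by linarith
  have h1 := Real.log_nonneg hB
  rw [mul_assoc c₀ (B ^ _) _, Real.rpow_def_of_pos h0, ← Real.exp_add]
  refine mul_le_mul_of_nonneg_left (Real.exp_le_exp.2 ?_) hc.le
  have h2 : √(Real.log B) ≤ √((n : ℝ) * Real.log B) := by
    apply Real.sqrt_le_sqrt
    have h3 : (1 : ℝ) ≤ n := by exact_mod_cast hn
    nlinarith
  nlinarith

end Aux

/-- **Vojta's inequality, with the truncated counting function, for the points of all products of
curves above tuples of points of degrees `r_1, …, r_m` of the line, and the proximity to all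
divisors: one exceptional set.** -/
theorem result (K : Type) [Field K] [NumberField K] (m : ℕ) (hm : 0 < m) (r : Fin m → ℕ)
    (hr : ∀ i, 1 ≤ r i) :
    ∃ (E : Set (Fin m → K[X])) (c₀ : ℝ),
      -- the exceptional set has density zero
      (∀ B : ℝ, 1 ≤ B → (E ∩ points K r B).Finite ∧
        ((E ∩ points K r B).ncard : ℝ) ≤
          c₀ * B ^ ((finrank ℚ K : ℝ) * ∑ i, (r i : ℝ) * (r i + 1)) *
            Real.exp (-√(Real.log B))) ∧
      -- for all number fields `k ⊇ K` and all points of degree at most `2 r_i + 1` over `K`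
      ∀ (k : Type) [Field k] [NumberField k] [Algebra K k] (q : Fin m → ℕ)
        (a : ∀ i, Fin (q i) → k), (∀ i, 0 < q i) → (∀ i, Function.Injective (a i)) →
        (∀ i j, (minpoly K (a i j)).natDegree ≤ 2 * r i + 1) →
        -- for all smooth curves over `k`, finite over the `t`-line, and all divisors `D_i`
        ∀ (A : Fin m → Type) [∀ i, CommRing (A i)] [∀ i, IsDedekindDomain (A i)]
          [∀ i, Algebra k (A i)] [∀ i, Algebra k[X] (A i)] [∀ i, IsScalarTower k k[X] (A i)]
          [∀ i, Module.Finite k[X] (A i)] [∀ i, FaithfulSMul k[X] (A i)]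
          (u : ∀ i, Fin (q i) → ℕ) (y : ∀ i j, Fin (u i j) → A i)
          (F : ∀ i, Fin (q i) → Ideal (A i)), (∀ i j, F i j ≠ ⊥) →
          (∀ i j l, ∀ f ∈ F i j, y i j l * f ∈ fibre k (A i) (a i j)) →
        -- for all divisors `D'` of the product of the lines
        ∀ (d : Fin m → ℕ) (G : MvPolynomial (Fin m) k), G ≠ 0 → (∀ i, G.degreeOf i ≤ d i) →
        ∀ (S : Finset (HeightOneSpectrum (𝓞 k))) (ε : ℝ), 0 < ε → ∃ c : ℝ,
          -- for all points `P` above a tuple not in `E`, with values in any field `L`
          ∀ (L : Type) [Field L] [NumberField L] [Algebra K L] [Algebra k L]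
            [IsScalarTower K k L] (P : ∀ i, A i →ₐ[k] L),
            (∀ i, (minpoly K (P i (coord k (A i)))).natDegree = r i) →
            (fun i => minpoly K (P i (coord k (A i)))) ∉ E →
            (∀ i j, P i (coord k (A i)) ≠ algebraMap k L (a i j)) →
            MvPolynomial.aeval (fun i => P i (coord k (A i))) G ≠ 0 →
            proximity S d G (fun i => P i (coord k (A i))) +
              ∑ i, (degree k (F i) - ε) * height (P i (coord k (A i))) ≤
              truncated S a u y P + logDisc L + c := by
  classical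
  obtain ⟨E, c₀, hc₀, hE1, hEL, hEC, hEP⟩ := Pool.Agent.N753.DR.univ K hm r hr
  have hn : 1 ≤ finrank ℚ K := finrank_pos
  refine ⟨E, c₀, ?_, ?_⟩
  · intro B hB
    have hU : 0 ≤ (finrank ℚ K : ℝ) * Real.log B := by
      have := Real.log_nonneg hB
      positivity
    obtain ⟨h1, h2⟩ := hE1 _ hU
    have hsub : E ∩ points K r B ⊆
        {P | P ∈ E ∧ Pool.Agent.N753.DR.HT r ((finrank ℚ K : ℝ) * Real.log B) P} :=
      fun p hp => ⟨hp.1, points_at hp.2⟩
    refine ⟨h1.subset hsub, le_trans ?_ (h2.trans (count_le hn hc₀ hB))⟩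
    exact_mod_cast Set.ncard_le_ncard hsub h1
  intro k _ _ _ q a hq ha hdeg A _ _ _ _ _ _ _ u y F hF hyF d G hG hd S ε hε
  obtain ⟨b, hb0, hb⟩ := exists_nat S
  obtain ⟨C1, hC1, h1⟩ := Pool.Agent.N753.DR.pmain hEL hEC k q a hq ha hdeg A u y F hF
    (fun i j l f hf => hyF i j l f hf) {b}
    (fun p hp => by rw [Finset.mem_singleton] at hp; rw [hp]; exact hb0) (ε / 2) (half_pos hε)
  obtain ⟨C2, hC2, h2⟩ := Pool.Agent.N753.DR.pcPrk K m r E hEP k d G hG hd S (ε / 2) (half_pos hε)
  refine ⟨C1 + C2, ?_⟩
  intro L _ _ _ _ _ P hdegP hPE hP hGP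
  have h3 := h1 L P hdegP hPE hP
  have h4 := h2 L (fun i => P i (coord k (A i))) hdegP hPE hGP
  have h5 := truncated_ge S a u y P b hb hP
  rw [← proximity_eq] at h4
  have h6 : (0 : ℝ) < finrank ℚ L := by exact_mod_cast finrank_pos (R := ℚ) (M := L)
  have h7 : Real.log |(discr L : ℝ)| = finrank ℚ L * logDisc L := by
    unfold logDisc
    field_simp
  have h8 : ∀ x : L, Height.logHeight₁ x = finrank ℚ L * height x := by
    intro x
    unfold height
    field_simp
  have h9 : ∑ i, (q i - (∑ j, (finrank k (A i ⧸ F i j) : ℝ)) / finrank k[X] (A i) - ε / 2) *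
      Height.logHeight₁ (P i (algebraMap k[X] (A i) X)) =
      finrank ℚ L * ∑ i, (degree k (F i) - ε) * height (P i (coord k (A i))) +
        ε / 2 * ∑ i, Height.logHeight₁ (P i (coord k (A i))) := by
    rw [Finset.mul_sum, Finset.mul_sum, ← Finset.sum_add_distrib]
    refine Finset.sum_congr rfl fun i _ => ?_
    have h10 : P i (algebraMap k[X] (A i) X) = P i (coord k (A i)) := rfl
    rw [h10, h8]
    unfold degree
    ring
  rw [h9, h7] at h3
  refine le_of_mul_le_mul_left ?_ h6
  have h10 : Pool.Agent.W223.CV.cc {b} (fun v : HeightOneSpectrum (𝓞 L) => ∃ i,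
            v.valuation L (P i (algebraMap k[X] (A i) X)) ≤ 1 ∧
            ∃ j, v.valuation L (P i (algebraMap k[X] (A i) X) - algebraMap k L (a i j)) < 1 ∧
              ∀ l, v.valuation L (P i (y i j l)) < 1) ≤ finrank ℚ L * truncated S a u y P := h5
  nlinarith

end Pool.Agent.Results.MP_71c16a_nt.ProductsOfCurves
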